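import Pool.Agent.Helper1.RK.StA

/-! Module LU2 of project RK: regularity of the vector fields. -/

set_option autoImplicit false

namespace Pool.Agent.Helper97.RK

open Pool.Agent.Helper1.RK Polynomial

section

variable {L : Type} [Field L] [CharZero L] {p : L}

/-- order at least `N` -/
private def Ge (p : L) (N : ℤ) (x : RatFunc L) : Prop := x = 0 ∨ N ≤ ord p x

private theorem ge_add (h1 : StORD) {N : ℤ} {x y : RatFunc L} (hx : Ge p N x) (hy : Ge p N y) :
    Ge p N (x + y) := by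
  obtain ⟨-, -, -, -, -, o6, -, -, -, -⟩ := h1 L p
  by_cases h : x + y = 0
  · exact Or.inl h
  · rcases hx with rfl | hx
    · rw [zero_add]; exact hy
    · rcases hy with rfl | hy
      · rw [add_zero]; exact Or.inr hx
      · by_cases hx0 : x = 0
        · subst hx0; rw [zero_add]; exact Or.inr hy
        · by_cases hy0 : y = 0
          · subst hy0; rw [add_zero]; exact Or.inr hx
          · exact Or.inr ((le_min hx hy).trans (o6 x y hx0 hy0 h))

private theorem ge_neg (h1 : StORD) {N : ℤ} {x : RatFunc L} (hx : Ge p N x) : Ge p N (-x) := by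
  obtain ⟨-, -, -, o4, -, -, -, -, -, -⟩ := h1 L p
  rcases hx with rfl | hx
  · exact Or.inl neg_zero
  · exact Or.inr (by rw [o4]; exact hx)

private theorem ge_mul (h1 : StORD) {N N' : ℤ} {x y : RatFunc L} (hx : Ge p N x)
    (hy : Ge p N' y) : Ge p (N + N') (x * y) := by
  obtain ⟨-, o2, -, -, -, -, -, -, -, -⟩ := h1 L p
  by_cases hx0 : x = 0
  · exact Or.inl (by rw [hx0, zero_mul])
  · by_cases hy0 : y = 0
    · exact Or.inl (by rw [hy0, mul_zero])
    · have a1 := hx.resolve_left hx0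
      have a2 := hy.resolve_left hy0
      exact Or.inr (by rw [o2 x y hx0 hy0]; exact add_le_add a1 a2)

private theorem ge_mono {N N' : ℤ} {x : RatFunc L} (h : N' ≤ N) (hx : Ge p N x) : Ge p N' x := by
  rcases hx with h0 | hx
  · exact Or.inl h0
  · exact Or.inr (h.trans hx)

private theorem ev_pow (h2 : StREG) {g : RatFunc L} (hg : Reg p g) (n : ℕ) :
    Reg p (g ^ n) ∧ ev p (g ^ n) = ev p g ^ n := by
  obtain ⟨-, -, -, -, r5, -, r7, -, -⟩ := h2 L p
  induction n with
  | zero =>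
    have := r5 1
    rw [map_one] at this
    simpa using this
  | succ n ih =>
    have := r7 (g ^ n) g ih.1 hg
    rw [pow_succ, pow_succ]
    refine ⟨this.2.2.1, ?_⟩
    rw [this.2.2.2.1, ih.2]

private theorem ev_poly (h2 : StREG) {g : RatFunc L} (hg : Reg p g) (P : L[X]) :
    Reg p (P.eval₂ RatFunc.C g) ∧ ev p (P.eval₂ RatFunc.C g) = P.eval (ev p g) := by
  obtain ⟨-, -, -, -, r5, -, r7, -, -⟩ := h2 L p
  induction P using Polynomial.induction_on' with
  | add P Q hP hQ =>
    have := r7 _ _ hP.1 hQ.1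
    rw [eval₂_add, eval_add]
    exact ⟨this.1, by rw [this.2.1, hP.2, hQ.2]⟩
  | monomial n a =>
    rw [eval₂_monomial, eval_monomial]
    have q1 := ev_pow h2 hg n
    have q2 := r5 a
    have q3 := r7 _ _ q2.1 q1.1
    exact ⟨q3.2.2.1, by rw [q3.2.2.2.1, q1.2, q2.2]⟩

private theorem dt_poly {Dt : Derivation ℤ (RatFunc L) (RatFunc L)}
    (hDt : Over (0 : Derivation ℤ L L) 1 Dt) (g : RatFunc L) (P : L[X]) :
    Dt (P.eval₂ RatFunc.C g) = (derivative P).eval₂ RatFunc.C g * Dt g := by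
  have hC : ∀ a : L, Dt (RatFunc.C a) = 0 := by
    intro a
    rw [hDt.1 a]
    simp
  induction P using Polynomial.induction_on' with
  | add P Q hP hQ =>
    rw [eval₂_add, map_add, derivative_add, eval₂_add, hP, hQ]
    ring
  | monomial n a =>
    rw [eval₂_monomial, Derivation.leibniz, hC, smul_zero, add_zero, derivative_monomial,
      eval₂_monomial, Derivation.leibniz_pow, smul_eq_mul, smul_eq_mul, nsmul_eq_mul, map_mul]
    simp only [map_natCast]
    ring

/-- the commutator of two derivations -/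
private theorem exists_cmtG {K : Type*} [Field K] (A : Algebra ℤ K)
    (D₁ D₂ : @Derivation ℤ K K _ _ _ A _ (AddCommGroup.toIntModule K)) :
    ∃ D : @Derivation ℤ K K _ _ _ A _ (AddCommGroup.toIntModule K),
      ∀ x, D x = D₁ (D₂ x) - D₂ (D₁ x) := by
  obtain rfl : A = Ring.toIntAlgebra K := Subsingleton.elim _ _
  refine ⟨Derivation.mk' (AddMonoidHom.mk' (fun x => D₁ (D₂ x) - D₂ (D₁ x))
    (fun a b => by simp only [map_add]; ring)).toIntLinearMap ?_, fun x => rfl⟩
  intro a b
  show D₁ (D₂ (a * b)) - D₂ (D₁ (a * b)) =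
    a • (D₁ (D₂ b) - D₂ (D₁ b)) + b • (D₁ (D₂ a) - D₂ (D₁ a))
  simp only [Derivation.leibniz, smul_eq_mul, map_add]
  ring

private noncomputable def cmt (D₁ D₂ : Derivation ℤ (RatFunc L) (RatFunc L)) :
    Derivation ℤ (RatFunc L) (RatFunc L) :=
  Classical.choose (exists_cmtG (K := RatFunc L) inferInstance D₁ D₂)

private theorem cmt_apply (D₁ D₂ : Derivation ℤ (RatFunc L) (RatFunc L)) (x : RatFunc L) :
    cmt D₁ D₂ x = D₁ (D₂ x) - D₂ (D₁ x) :=
  Classical.choose_spec (exists_cmtG (K := RatFunc L) inferInstance D₁ D₂) x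

private theorem exists_anti (Q : L[X]) : ∃ P : L[X], derivative P = Q ∧ P.eval 0 = 0 := by
  induction Q using Polynomial.induction_on' with
  | add P Q hP hQ =>
    obtain ⟨P', h1, h2⟩ := hP
    obtain ⟨Q', h3, h4⟩ := hQ
    exact ⟨P' + Q', by rw [derivative_add, h1, h3], by rw [eval_add, h2, h4, add_zero]⟩
  | monomial n a =>
    refine ⟨monomial (n + 1) (a / ((n : L) + 1)), ?_, ?_⟩
    · rw [derivative_monomial]
      have h : ((n : L) + 1) ≠ 0 := by exact_mod_cast Nat.succ_ne_zero n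
      push_cast
      rw [div_mul_cancel₀ _ h]
    · rw [eval_monomial]; simp

end

theorem pLU2 (h1 : StORD) (h2 : StREG) (h3 : StDER) (h4 : StLCD) (h5 : StPL) : StLU2 := by
  intro L _ _ I d E H hE hcl i₀ p
  by_contra hreg
  obtain ⟨-, o2, o3, o4, o5, o6, o7, o8, o9, o10⟩ := h1 L p
  obtain ⟨r1, r2, r3, r4, r5, r6, r7, r8, r9⟩ := h2 L p
  obtain ⟨dex, duniq, -, dker⟩ := h3 L
  obtain ⟨Dt, hDt⟩ := dex 0 1
  have hk := dker Dt hDt
  obtain ⟨-, l2, l3⟩ := h4 L p Dt hDt
  have hC : ∀ a : L, Dt (RatFunc.C a) = 0 := by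
    intro a
    rw [hDt.1 a]
    simp
  set M : Set (RatFunc L) := {x | ∀ i, E i x = 0} with hM
  obtain ⟨hH0, hHneg⟩ := (r3 (H i₀)).1 hreg
  set b : ℤ := - ord p (H i₀) with hb
  have hb1 : 1 ≤ b := by omega
  have hXC : (RatFunc.X : RatFunc L) - RatFunc.C p ≠ 0 := by
    intro h
    have h6 : ord p (0 : RatFunc L) = 0 := by
      have := o8 0
      rwa [map_zero] at this
    rw [← h, o9] at h6
    exact one_ne_zero h6
  -- a nonconstant element
  obtain ⟨c₀, hc₀M, hc₀⟩ : ∃ c ∈ M, ¬ Cst c := by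
    by_contra hno
    push Not at hno
    have hsub : Subfield.closure (Set.range (RatFunc.C : L → RatFunc L) ∪ M) ≤
        (RatFunc.C : L →+* RatFunc L).fieldRange := by
      rw [Subfield.closure_le]
      rintro x (⟨a, rfl⟩ | hx)
      · exact ⟨a, rfl⟩
      · obtain ⟨a, rfl⟩ := hno x hx
        exact ⟨a, rfl⟩
    rw [hcl] at hsub
    obtain ⟨a, ha⟩ := hsub (Subfield.mem_top (RatFunc.X - RatFunc.C p))
    have h7 : ord p (RatFunc.C a) = 1 := by
      rw [← o9]
      exact congrArg _ ha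
    rw [o8] at h7
    exact zero_ne_one h7
  have hPL : ∀ c ∈ M, ¬ Cst c → Reg p c ∧ d i₀ (ev p c) ≠ 0 ∧ ord p (Dt c) = b := by
    intro c hc hcc
    exact (h5 L p (d i₀) (H i₀) (E i₀) Dt c (hE i₀) hDt (hc i₀) hcc).2 hreg
  have hM0 : ∀ c ∈ M, Ge p 0 c := by
    intro c hc
    by_cases hcc : Cst c
    · obtain ⟨a, rfl⟩ := hcc
      exact Or.inr (by rw [o8])
    · exact (r2 c).1 (hPL c hc hcc).1
  have hMreg : ∀ c ∈ M, Reg p c := fun c hc => (r2 c).2 (hM0 c hc)
  -- the derivation `δ`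
  have hDc₀ : Dt c₀ ≠ 0 := fun h => hc₀ ((hk c₀).1 h)
  have hcomm : ∀ i x, Dt (E i x) - E i (Dt x) = Dt (H i) * Dt x := by
    intro i x
    have e : cmt Dt (E i) = Dt (H i) • Dt := by
      apply duniq 0 (Dt (H i))
      · refine ⟨?_, ?_⟩
        · intro a
          rw [cmt_apply, (hE i).1 a, hC, hC, map_zero, sub_zero]
          simp
        · rw [cmt_apply, (hE i).2, hDt.2]
          simp
      · refine ⟨?_, ?_⟩
        · intro a
          rw [Derivation.smul_apply, hC]
          simp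
        · rw [Derivation.smul_apply, hDt.2]
          simp
    have e2 := DFunLike.congr_fun e x
    rw [cmt_apply, Derivation.smul_apply, smul_eq_mul] at e2
    exact e2
  have hδM : ∀ x ∈ M, Dt x / Dt c₀ ∈ M := by
    intro x hx i
    have e1 := hcomm i x
    have e2 := hcomm i c₀
    rw [hx i, map_zero, zero_sub] at e1
    rw [hc₀M i, map_zero, zero_sub] at e2
    have e3 : E i (Dt x) = E i (Dt x / Dt c₀) * Dt c₀ + (Dt x / Dt c₀) * E i (Dt c₀) := by
      conv_lhs => rw [← div_mul_cancel₀ (Dt x) hDc₀]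
      rw [Derivation.leibniz, smul_eq_mul, smul_eq_mul]
      ring
    have e4 : (Dt x / Dt c₀) * E i (Dt c₀) = E i (Dt x) := by
      have e5 : E i (Dt c₀) = -(Dt (H i) * Dt c₀) := by rw [← e2]; ring
      have e6 : E i (Dt x) = -(Dt (H i) * Dt x) := by rw [← e1]; ring
      rw [e5, e6]
      field_simp
    rw [e4] at e3
    have e7 : E i (Dt x / Dt c₀) * Dt c₀ = 0 := by
      have := e3
      exact left_eq_add.1 (by rw [add_comm]; exact e3)
    exact (mul_eq_zero.1 e7).resolve_right hDc₀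
  -- the coordinate
  set π : RatFunc L := c₀ - RatFunc.C (ev p c₀) with hπ
  obtain ⟨hc₀r, -, hordDc₀⟩ := hPL c₀ hc₀M hc₀
  obtain ⟨hπ1, hπ2⟩ := l3 c₀ hc₀ hc₀r
  rw [← hπ] at hπ1 hπ2
  have hordπ : ord p π = b + 1 := by
    rw [hordDc₀] at hπ2
    omega
  have hDπ : Dt π = Dt c₀ := by rw [hπ, map_sub, hC, sub_zero]
  have hπr : Reg p π ∧ ev p π = 0 := by
    have h8 := r7 c₀ (RatFunc.C (ev p c₀)) hc₀r (r5 _).1
    refine ⟨h8.2.2.2.2.1, ?_⟩
    rw [hπ, h8.2.2.2.2.2, (r5 _).2, sub_self]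
  have hπ0 : π ≠ 0 := by
    intro h
    rw [h] at hπ1
    have h6 : ord p (0 : RatFunc L) = 0 := by
      have := o8 0
      rwa [map_zero] at this
    rw [h6] at hπ1
    omega
  -- integration
  have hint : ∀ (y : RatFunc L) (q : ℤ), Reg p y → ev p y = 0 →
      (Dt y = 0 ∨ q ≤ ord p (Dt y / Dt c₀)) → Ge p (q + b + 1) y := by
    intro y q hy hy0 hq
    rcases hq with hq | hq
    · obtain ⟨a, rfl⟩ := (hk y).1 hq
      rw [(r5 a).2] at hy0
      rw [hy0]
      exact Or.inl (map_zero _)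
    · rcases (r4 y hy).1 hy0 with h0 | h1'
      · exact Or.inl h0
      · have hy00 : y ≠ 0 := by
          rintro rfl
          have h6 : ord p (0 : RatFunc L) = 0 := by
            have := o8 0
            rwa [map_zero] at this
          omega
        obtain ⟨m1, m2⟩ := l2 y hy00 (by omega)
        have m3 : ord p (Dt y) = ord p (Dt y / Dt c₀) + ord p (Dt c₀) := by
          rw [← o2 _ _ (div_ne_zero m1 hDc₀) hDc₀, div_mul_cancel₀ _ hDc₀]
        rw [hordDc₀] at m3
        exact Or.inr (by omega)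
  -- Taylor
  have htay : ∀ (n : ℕ), ∀ c ∈ M, ∃ P : L[X], Ge p ((b + 1) * n) (c - P.eval₂ RatFunc.C π) := by
    intro n
    induction n with
    | zero =>
      intro c hc
      refine ⟨0, ?_⟩
      simpa using hM0 c hc
    | succ n ih =>
      intro c hc
      obtain ⟨Q, hQ⟩ := ih _ (hδM c hc)
      obtain ⟨P₀, hP₀, hP₀0⟩ := exists_anti Q
      refine ⟨P₀ + Polynomial.C (ev p c), ?_⟩
      set P := P₀ + Polynomial.C (ev p c) with hP
      have hPd : derivative P = Q := by rw [hP, derivative_add, hP₀, derivative_C, add_zero]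
      have hPe : P.eval 0 = ev p c := by rw [hP, eval_add, hP₀0, eval_C, zero_add]
      have q1 := ev_poly h2 hπr.1 P
      rw [hπr.2, hPe] at q1
      have q2 := r7 c _ (hMreg c hc) q1.1
      have q3 : Dt (c - P.eval₂ RatFunc.C π) / Dt c₀ = Dt c / Dt c₀ - Q.eval₂ RatFunc.C π := by
        rw [map_sub, dt_poly hDt, hPd, hDπ]
        field_simp
      have q4 := hint (c - P.eval₂ RatFunc.C π) ((b + 1) * n) q2.2.2.2.2.1
        (by rw [q2.2.2.2.2.2, q1.2, sub_self]) (by
          rcases hQ with hQ | hQ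
          · left
            rw [← q3] at hQ
            exact (div_eq_zero_iff.1 hQ).resolve_right hDc₀
          · right
            rw [q3]
            exact hQ)
      have q5 : (b + 1) * ((n + 1 : ℕ) : ℤ) = (b + 1) * n + b + 1 := by push_cast; ring
      rw [q5]
      exact q4
  -- the ring
  have hpolyreg : ∀ P : L[X], Ge p 0 (P.eval₂ RatFunc.C π) := fun P =>
    (r2 _).1 (ev_poly h2 hπr.1 P).1
  let T : Subring (RatFunc L) :=
    { carrier := {x | ∀ n : ℕ, ∃ P : L[X], Ge p ((b + 1) * n) (x - P.eval₂ RatFunc.C π)}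
      one_mem' := fun n => ⟨1, by rw [eval₂_one, sub_self]; exact Or.inl rfl⟩
      zero_mem' := fun n => ⟨0, by rw [eval₂_zero, sub_self]; exact Or.inl rfl⟩
      add_mem' := by
        intro x y hx hy n
        obtain ⟨P, hP⟩ := hx n
        obtain ⟨Q, hQ⟩ := hy n
        refine ⟨P + Q, ?_⟩
        have e : x + y - (P + Q).eval₂ RatFunc.C π =
          (x - P.eval₂ RatFunc.C π) + (y - Q.eval₂ RatFunc.C π) := by rw [eval₂_add]; ring
        rw [e]
        exact ge_add h1 hP hQ
      neg_mem' := by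
        intro x hx n
        obtain ⟨P, hP⟩ := hx n
        refine ⟨-P, ?_⟩
        have e : -x - (-P).eval₂ RatFunc.C π = -(x - P.eval₂ RatFunc.C π) := by
          rw [eval₂_neg]; ring
        rw [e]
        exact ge_neg h1 hP
      mul_mem' := by
        intro x y hx hy n
        obtain ⟨P, hP⟩ := hx n
        obtain ⟨Q, hQ⟩ := hy n
        obtain ⟨Q₀, hQ₀⟩ := hy 0
        refine ⟨P * Q, ?_⟩
        have hy0 : Ge p 0 y := by
          have e : y = (y - Q₀.eval₂ RatFunc.C π) + Q₀.eval₂ RatFunc.C π := by ring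
          rw [e]
          refine ge_add h1 ?_ (hpolyreg Q₀)
          simpa using hQ₀
        have e : x * y - (P * Q).eval₂ RatFunc.C π =
          (x - P.eval₂ RatFunc.C π) * y + (y - Q.eval₂ RatFunc.C π) * P.eval₂ RatFunc.C π := by
          rw [eval₂_mul]; ring
        rw [e]
        have a1 := ge_mul h1 hP hy0
        have a2 := ge_mul h1 hQ (hpolyreg P)
        rw [add_zero] at a1 a2
        exact ge_add h1 a1 a2 }
  have hTC : ∀ a : L, RatFunc.C a ∈ T := by
    intro a n
    exact ⟨Polynomial.C a, by rw [eval₂_C, sub_self]; exact Or.inl rfl⟩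
  have hTM : ∀ c ∈ M, c ∈ T := fun c hc n => htay n c hc
  -- divisibility
  have hpdiv : ∀ P : L[X], P.eval₂ RatFunc.C π ≠ 0 → (b + 1) ∣ ord p (P.eval₂ RatFunc.C π) := by
    intro P hP
    have hP0 : P ≠ 0 := by rintro rfl; exact hP (eval₂_zero _ _)
    obtain ⟨R, hR, hRr⟩ := Polynomial.exists_eq_pow_rootMultiplicity_mul_and_not_dvd P hP0 0
    have hR0 : R.eval 0 ≠ 0 := fun h => hRr (dvd_iff_isRoot.2 h)
    have q1 := ev_poly h2 hπr.1 R
    rw [hπr.2] at q1
    have q2 : R.eval₂ RatFunc.C π ≠ 0 := by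
      intro h
      apply hR0
      rw [← q1.2]
      exact (r4 _ q1.1).2 (Or.inl h)
    have q3 : ord p (R.eval₂ RatFunc.C π) = 0 := by
      have a1 := ((r2 _).1 q1.1).resolve_left q2
      by_contra hne
      apply hR0
      rw [← q1.2]
      exact (r4 _ q1.1).2 (Or.inr (by omega))
    have q4 : P.eval₂ RatFunc.C π = π ^ (rootMultiplicity 0 P) * R.eval₂ RatFunc.C π := by
      conv_lhs => rw [hR]
      rw [eval₂_mul, eval₂_pow, eval₂_sub, eval₂_X, eval₂_C, map_zero, sub_zero]
    rw [q4, o2 _ _ (pow_ne_zero _ hπ0) q2, o5, q3, hordπ, add_zero]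
    exact Dvd.intro_left _ rfl
  have hdiv : ∀ x ∈ T, x ≠ 0 → (b + 1) ∣ ord p x := by
    intro x hx hx0
    obtain ⟨n, hn⟩ : ∃ n : ℕ, ord p x < (b + 1) * n := by
      refine ⟨(ord p x).toNat + 1, ?_⟩
      have h9 : ord p x ≤ ((ord p x).toNat : ℤ) := Int.self_le_toNat _
      push_cast
      nlinarith
    obtain ⟨P, hP⟩ := hx n
    rcases hP with hP | hP
    · have e : x = P.eval₂ RatFunc.C π := sub_eq_zero.1 hP
      rw [e]
      exact hpdiv P (by rw [← e]; exact hx0)
    · by_cases hd0 : x - P.eval₂ RatFunc.C π = 0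
      · have e : x = P.eval₂ RatFunc.C π := sub_eq_zero.1 hd0
        rw [e]
        exact hpdiv P (by rw [← e]; exact hx0)
      · have hneg : -(x - P.eval₂ RatFunc.C π) ≠ 0 := neg_ne_zero.2 hd0
        have hlt : ord p x < ord p (-(x - P.eval₂ RatFunc.C π)) := by rw [o4]; omega
        obtain ⟨s1, s2⟩ := o7 x _ hx0 hneg hlt
        have e : x + -(x - P.eval₂ RatFunc.C π) = P.eval₂ RatFunc.C π := by ring
        rw [e] at s1 s2
        rw [← s2]
        exact hpdiv P s1
  -- the contradiction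
  have hsub : Subring.closure (Set.range (RatFunc.C : L → RatFunc L) ∪ M) ≤ T := by
    rw [Subring.closure_le]
    rintro x (⟨a, rfl⟩ | hx)
    · exact hTC a
    · exact hTM x hx
  have hmem : (RatFunc.X : RatFunc L) - RatFunc.C p ∈
      Subfield.closure (Set.range (RatFunc.C : L → RatFunc L) ∪ M) := by
    rw [hcl]; exact Subfield.mem_top _
  rw [Subfield.mem_closure_iff] at hmem
  obtain ⟨y, hy, z, hz, hyz⟩ := hmem
  have hy0 : y ≠ 0 := by
    rintro rfl
    rw [zero_div] at hyz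
    exact hXC hyz.symm
  have hz0 : z ≠ 0 := by
    rintro rfl
    rw [div_zero] at hyz
    exact hXC hyz.symm
  have k1 := hdiv y (hsub hy) hy0
  have k2 := hdiv z (hsub hz) hz0
  have k3 : ord p (y / z) = ord p y - ord p z := by
    rw [div_eq_mul_inv, o2 y z⁻¹ hy0 (inv_ne_zero hz0), o3]
    ring
  rw [hyz, o9] at k3
  have k4 : (b + 1) ∣ ord p y - ord p z := dvd_sub k1 k2
  rw [← k3] at k4
  have k5 := Int.le_of_dvd one_pos k4
  omega

end Pool.Agent.Helper97.RK
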